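import Mathlib

set_option autoImplicit false

/-!
# The elements with infinitely many factorisations form a band which is an ideal

`S` is a semigroup in which every element has finitely many square roots and finitely many
factorisations avoiding its square roots.  An element is in `I` when `x b = x` for infinitely many
`b` or `b x = x` for infinitely many `b`.  We show that `I` absorbs products.
-/

namespace Pool.Agent.Helper35.SG

universe u

variable {S : Type u} [Semigroup S]

/-- If `y * y ≠ z` only finitely many `b` satisfy `b * y = z`. -/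
theorem fin_right
    (ha : ∀ x : S, {c : S | c * c = x}.Finite)
    (hb : ∀ x : S, {p : S × S | p.1 * p.2 = x ∧ p.1 * p.1 ≠ x ∧ p.2 * p.2 ≠ x}.Finite)
    (y z : S) (h : y * y ≠ z) : {b : S | b * y = z}.Finite := by
  refine ((ha z).union ((hb z).image Prod.fst)).subset ?_
  intro b hbm
  have hbm' : b * y = z := hbm
  by_cases hbb : b * b = z
  · exact Or.inl hbb
  · exact Or.inr ⟨(b, y), ⟨hbm', hbb, h⟩, rfl⟩

/-- If `y * y ≠ z` only finitely many `b` satisfy `y * b = z`. -/
theorem fin_left
    (ha : ∀ x : S, {c : S | c * c = x}.Finite)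
    (hb : ∀ x : S, {p : S × S | p.1 * p.2 = x ∧ p.1 * p.1 ≠ x ∧ p.2 * p.2 ≠ x}.Finite)
    (y z : S) (h : y * y ≠ z) : {b : S | y * b = z}.Finite := by
  refine ((ha z).union ((hb z).image Prod.snd)).subset ?_
  intro b hbm
  have hbm' : y * b = z := hbm
  by_cases hbb : b * b = z
  · exact Or.inl hbb
  · exact Or.inr ⟨(y, b), ⟨hbm', h, hbb⟩, rfl⟩

/-- Pigeonhole: an infinite set mapped into a finite set has an infinite fibre. -/
theorem fibre {α β : Type*} {s : Set α} (hs : s.Infinite) (f : α → β) {t : Set β} (ht : t.Finite)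
    (h : ∀ a ∈ s, f a ∈ t) : ∃ y ∈ t, {a ∈ s | f a = y}.Infinite := by
  by_contra hno
  push Not at hno
  apply hs
  refine (Set.Finite.biUnion ht fun y hy => hno y hy).subset ?_
  intro a ha
  exact Set.mem_biUnion (h a ha) ⟨ha, rfl⟩

/-- The product of an `e` with `eb = e` for infinitely many `b` and an idempotent `y` has infinitely
many factorisations, or is fixed by infinitely many right multiplications. -/
theorem mul_mem_aux
    (ha : ∀ x : S, {c : S | c * c = x}.Finite)
    (hb : ∀ x : S, {p : S × S | p.1 * p.2 = x ∧ p.1 * p.1 ≠ x ∧ p.2 * p.2 ≠ x}.Finite)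
    (e y : S) (he : {b : S | e * b = e}.Infinite) (hy : y * y = y)
    (hfin : {p : S × S | p.1 * p.2 = e * y}.Finite) :
    {b : S | (e * y) * b = e * y}.Infinite := by
  -- for all but finitely many `b` with `e b = e` also `b y = y`
  have hD : {d : S | e * d = e ∧ d * y = y}.Infinite := by
    have h1 : {b : S | e * b = e ∧ b * y ≠ y}.Finite := by
      refine (Set.Finite.biUnion ((hfin.image Prod.snd).sdiff (t := {y})) fun z hz =>
        fin_right ha hb y z ?_).subset ?_
      · exact fun h => hz.2 (by rw [← h, hy]; rfl)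
      · rintro b ⟨hb1, hb2⟩
        refine Set.mem_biUnion (x := b * y) ⟨⟨(e, b * y), ?_, rfl⟩, hb2⟩ rfl
        show e * (b * y) = e * y
        rw [← mul_assoc, hb1]
    refine (he.sdiff h1).mono ?_
    rintro b ⟨hb1, hb2⟩
    refine ⟨hb1, ?_⟩
    by_contra h
    exact hb2 ⟨hb1, h⟩
  obtain ⟨v, -, hv⟩ := fibre hD (fun d => (e * y) * d) (hfin.image Prod.fst) (by
    rintro d ⟨hd1, hd2⟩
    refine ⟨((e * y) * d, y), ?_, rfl⟩
    show ((e * y) * d) * y = e * y
    rw [mul_assoc, hd2, mul_assoc, hy])
  have hgg : (e * y) * (e * y) = v := by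
    by_contra h
    exact hv ((fin_left ha hb _ _ h).subset fun d hd => hd.2)
  have hvy : v * y = e * y := by
    obtain ⟨d, ⟨hd1, hd2⟩, hd3⟩ := hv.nonempty
    have hd3' : (e * y) * d = v := hd3
    rw [← hd3', mul_assoc, hd2, mul_assoc, hy]
  have hvg : v = e * y := by
    rw [← hvy, ← hgg, mul_assoc (e * y), mul_assoc e y y, hy]
  rw [hvg] at hv
  exact hv.mono fun d hd => hd.2

/-- `e x` is in `I` when `e b = e` for infinitely many `b`. -/
theorem right_mul_mem
    (ha : ∀ x : S, {c : S | c * c = x}.Finite)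
    (hb : ∀ x : S, {p : S × S | p.1 * p.2 = x ∧ p.1 * p.1 ≠ x ∧ p.2 * p.2 ≠ x}.Finite)
    (hI : ∀ x : S, {p : S × S | p.1 * p.2 = x}.Infinite →
      {b : S | x * b = x}.Infinite ∨ {b : S | b * x = x}.Infinite)
    (hid : ∀ x : S, {b : S | x * b = x}.Infinite → x * x = x)
    (hid' : ∀ x : S, {b : S | b * x = x}.Infinite → x * x = x)
    (e x : S) (he : {b : S | e * b = e}.Infinite) :
    {b : S | (e * x) * b = e * x}.Infinite ∨ {b : S | b * (e * x) = e * x}.Infinite := by
  by_contra hno
  have hfin : {p : S × S | p.1 * p.2 = e * x}.Finite := by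
    by_contra h
    exact hno (hI _ h)
  obtain ⟨y, -, hy⟩ := fibre he (fun b => b * x) (hfin.image Prod.snd) (by
    intro b hbm
    have hbm' : e * b = e := hbm
    refine ⟨(e, b * x), ?_, rfl⟩
    show e * (b * x) = e * x
    rw [← mul_assoc, hbm'])
  have hxx : x * x = y := by
    by_contra h
    exact hy ((fin_right ha hb _ _ h).subset fun d hd => hd.2)
  have hey : e * y = e * x := by
    obtain ⟨b, hb1, hb2⟩ := hy.nonempty
    have hb1' : e * b = e := hb1
    have hb2' : b * x = y := hb2
    rw [← hb2', ← mul_assoc, hb1']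
  have hyid : y * y = y := by
    have hinf : {p : S × S | p.1 * p.2 = y}.Infinite := by
      intro h
      exact hy ((h.image Prod.fst).subset fun b hbm => ⟨(b, x), hbm.2, rfl⟩)
    rcases hI y hinf with h | h
    · exact hid y h
    · exact hid' y h
  apply hno
  left
  rw [← hey]
  exact mul_mem_aux ha hb e y he hyid (by rw [hey]; exact hfin)

/-- Mirror image of `mul_mem_aux`. -/
theorem mul_mem_aux'
    (ha : ∀ x : S, {c : S | c * c = x}.Finite)
    (hb : ∀ x : S, {p : S × S | p.1 * p.2 = x ∧ p.1 * p.1 ≠ x ∧ p.2 * p.2 ≠ x}.Finite)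
    (e y : S) (he : {b : S | b * e = e}.Infinite) (hy : y * y = y)
    (hfin : {p : S × S | p.1 * p.2 = y * e}.Finite) :
    {b : S | b * (y * e) = y * e}.Infinite := by
  have hD : {d : S | d * e = e ∧ y * d = y}.Infinite := by
    have h1 : {b : S | b * e = e ∧ y * b ≠ y}.Finite := by
      refine (Set.Finite.biUnion ((hfin.image Prod.fst).sdiff (t := {y})) fun z hz =>
        fin_left ha hb y z ?_).subset ?_
      · exact fun h => hz.2 (by rw [← h, hy]; rfl)
      · rintro b ⟨hb1, hb2⟩
        refine Set.mem_biUnion (x := y * b) ⟨⟨(y * b, e), ?_, rfl⟩, hb2⟩ rfl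
        show (y * b) * e = y * e
        rw [mul_assoc, hb1]
    refine (he.sdiff h1).mono ?_
    rintro b ⟨hb1, hb2⟩
    refine ⟨hb1, ?_⟩
    by_contra h
    exact hb2 ⟨hb1, h⟩
  obtain ⟨v, -, hv⟩ := fibre hD (fun d => d * (y * e)) (hfin.image Prod.snd) (by
    rintro d ⟨hd1, hd2⟩
    refine ⟨(y, d * (y * e)), ?_, rfl⟩
    show y * (d * (y * e)) = y * e
    rw [← mul_assoc, hd2, ← mul_assoc, hy])
  have hgg : (y * e) * (y * e) = v := by
    by_contra h
    exact hv ((fin_right ha hb _ _ h).subset fun d hd => hd.2)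
  have hvy : y * v = y * e := by
    obtain ⟨d, ⟨hd1, hd2⟩, hd3⟩ := hv.nonempty
    have hd3' : d * (y * e) = v := hd3
    rw [← hd3', ← mul_assoc, hd2, ← mul_assoc, hy]
  have hvg : v = y * e := by
    rw [← hvy, ← hgg, ← mul_assoc y (y * e) (y * e), ← mul_assoc y y e, hy]
  rw [hvg] at hv
  exact hv.mono fun d hd => hd.2

/-- `x e` is in `I` when `b e = e` for infinitely many `b`. -/
theorem left_mul_mem
    (ha : ∀ x : S, {c : S | c * c = x}.Finite)
    (hb : ∀ x : S, {p : S × S | p.1 * p.2 = x ∧ p.1 * p.1 ≠ x ∧ p.2 * p.2 ≠ x}.Finite)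
    (hI : ∀ x : S, {p : S × S | p.1 * p.2 = x}.Infinite →
      {b : S | x * b = x}.Infinite ∨ {b : S | b * x = x}.Infinite)
    (hid : ∀ x : S, {b : S | x * b = x}.Infinite → x * x = x)
    (hid' : ∀ x : S, {b : S | b * x = x}.Infinite → x * x = x)
    (e x : S) (he : {b : S | b * e = e}.Infinite) :
    {b : S | (x * e) * b = x * e}.Infinite ∨ {b : S | b * (x * e) = x * e}.Infinite := by
  by_contra hno
  have hfin : {p : S × S | p.1 * p.2 = x * e}.Finite := by
    by_contra h
    exact hno (hI _ h)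
  obtain ⟨y, -, hy⟩ := fibre he (fun b => x * b) (hfin.image Prod.fst) (by
    intro b hbm
    have hbm' : b * e = e := hbm
    refine ⟨(x * b, e), ?_, rfl⟩
    show (x * b) * e = x * e
    rw [mul_assoc, hbm'])
  have hxx : x * x = y := by
    by_contra h
    exact hy ((fin_left ha hb _ _ h).subset fun d hd => hd.2)
  have hey : y * e = x * e := by
    obtain ⟨b, hb1, hb2⟩ := hy.nonempty
    have hb1' : b * e = e := hb1
    have hb2' : x * b = y := hb2
    rw [← hb2', mul_assoc, hb1']
  have hyid : y * y = y := by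
    have hinf : {p : S × S | p.1 * p.2 = y}.Infinite := by
      intro h
      exact hy ((h.image Prod.snd).subset fun b hbm => ⟨(x, b), hbm.2, rfl⟩)
    rcases hI y hinf with h | h
    · exact hid y h
    · exact hid' y h
  apply hno
  right
  rw [← hey]
  exact mul_mem_aux' ha hb e y he hyid (by rw [hey]; exact hfin)

/-- `e x² = e x` when `e b = e` for infinitely many `b`. -/
theorem sq_right
    (ha : ∀ x : S, {c : S | c * c = x}.Finite)
    (hb : ∀ x : S, {p : S × S | p.1 * p.2 = x ∧ p.1 * p.1 ≠ x ∧ p.2 * p.2 ≠ x}.Finite)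
    (e x : S) (he : {b : S | e * b = e}.Infinite) (hid : e * e = e) :
    e * (x * x) = e * x := by
  by_cases hs : e * x = e
  · rw [← mul_assoc, hs, hs]
  have hY : {b : S | e * b = e * x}.Finite :=
    fin_left ha hb e (e * x) (by rw [hid]; exact fun h => hs h.symm)
  obtain ⟨y, hy1, hy⟩ := fibre he (fun b => b * x) hY (by
    intro b hbm
    have hbm' : e * b = e := hbm
    show e * (b * x) = e * x
    rw [← mul_assoc, hbm'])
  have hxx : x * x = y := by
    by_contra h
    exact hy ((fin_right ha hb _ _ h).subset fun d hd => hd.2)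
  rw [hxx]
  exact hy1

/-- `x² e = x e` when `b e = e` for infinitely many `b`. -/
theorem sq_left
    (ha : ∀ x : S, {c : S | c * c = x}.Finite)
    (hb : ∀ x : S, {p : S × S | p.1 * p.2 = x ∧ p.1 * p.1 ≠ x ∧ p.2 * p.2 ≠ x}.Finite)
    (e x : S) (he : {b : S | b * e = e}.Infinite) (hid : e * e = e) :
    (x * x) * e = x * e := by
  by_cases hs : x * e = e
  · rw [mul_assoc, hs, hs]
  have hY : {b : S | b * e = x * e}.Finite :=
    fin_right ha hb e (x * e) (by rw [hid]; exact fun h => hs h.symm)
  obtain ⟨y, hy1, hy⟩ := fibre he (fun b => x * b) hY (by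
    intro b hbm
    have hbm' : b * e = e := hbm
    show (x * b) * e = x * e
    rw [mul_assoc, hbm'])
  have hxx : x * x = y := by
    by_contra h
    exact hy ((fin_left ha hb _ _ h).subset fun d hd => hd.2)
  rw [hxx]
  exact hy1

end Pool.Agent.Helper35.SG
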